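import Mathlib
import Pool.Agent.H759R2.Kad.Props7

open scoped ComplexOrder InnerProductSpace ComplexConjugate
open Finset

noncomputable section

namespace H759R2.Kad

universe u v

namespace Q8x

variable {A : Type u} [CStarAlgebra A]

theorem tup_right {n : ℕ} {v : Fin n → A} {p : A} (h : Tup v p) (i : Fin n) : v i * p = v i := by
  obtain ⟨hp1, hp2⟩ := h.pr
  have h1 : star (v i) * v i = p := by
    have := h.rel i i
    rwa [if_pos rfl] at this
  have h2 : star (v i - v i * p) * (v i - v i * p) = 0 := by
    rw [star_sub, star_mul, hp1, sub_mul, mul_sub, mul_sub]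
    have e1 : star (v i) * (v i * p) = p := by rw [← mul_assoc, h1, hp2]
    have e2 : p * star (v i) * v i = p := by rw [mul_assoc, h1, hp2]
    have e3 : p * star (v i) * (v i * p) = p := by
      rw [mul_assoc, e1, hp2]
    rw [h1, e1, e2, e3]
    simp
  have h3 := CStarRing.star_mul_self_eq_zero_iff (v i - v i * p) |>.mp h2
  exact (sub_eq_zero.mp h3).symm

theorem rng_prj {n : ℕ} {v : Fin n → A} {p : A} (h : Tup v p) (i : Fin n) :
    Prj (v i * star (v i)) := by
  refine ⟨by rw [star_mul, star_star], ?_⟩
  have h1 : star (v i) * v i = p := by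
    have := h.rel i i
    rwa [if_pos rfl] at this
  calc v i * star (v i) * (v i * star (v i)) = v i * (star (v i) * v i) * star (v i) := by
        simp only [mul_assoc]
    _ = v i * star (v i) := by rw [h1, tup_right h i]

theorem rng_orth {n : ℕ} {v : Fin n → A} {p : A} (h : Tup v p) (i j : Fin n) (hij : i ≠ j) :
    v i * star (v i) * (v j * star (v j)) = 0 := by
  have h1 : star (v i) * v j = 0 := by
    have := h.rel i j
    rwa [if_neg hij] at this
  calc v i * star (v i) * (v j * star (v j)) = v i * (star (v i) * v j) * star (v j) := by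
        simp only [mul_assoc]
    _ = 0 := by rw [h1]; simp

theorem sum_mul_rng {n : ℕ} {v : Fin n → A} {p : A} (h : Tup v p) (i : Fin n) :
    (∑ j, v j * star (v j)) * (v i * star (v i)) = v i * star (v i) := by
  rw [Finset.sum_mul, Finset.sum_eq_single i]
  · exact (rng_prj h i).2
  · intro j _ hj
    exact rng_orth h j i hj
  · intro hi
    exact absurd (Finset.mem_univ i) hi

theorem sum_star {n : ℕ} (v : Fin n → A) :
    star (∑ j, v j * star (v j)) = ∑ j, v j * star (v j) := by
  rw [star_sum]
  apply Finset.sum_congr rfl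
  intro j _
  rw [star_mul, star_star]

theorem sum_sq {n : ℕ} {v : Fin n → A} {p : A} (h : Tup v p) :
    (∑ j, v j * star (v j)) * (∑ j, v j * star (v j)) = ∑ j, v j * star (v j) := by
  conv_lhs => rw [Finset.mul_sum]
  apply Finset.sum_congr rfl
  intro j _
  exact sum_mul_rng h j

theorem s_mul_sum {n : ℕ} {v : Fin n → A} {s : A} (hs : ∀ i, s * v i = v i) :
    s * ∑ j, v j * star (v j) = ∑ j, v j * star (v j) := by
  rw [Finset.mul_sum]
  apply Finset.sum_congr rfl
  intro j _
  rw [← mul_assoc, hs]

theorem r_prj {n : ℕ} {v : Fin n → A} {p s : A} (h : Tup v p) (hsp : Prj s)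
    (hs : ∀ i, s * v i = v i) : Prj (s - ∑ j, v j * star (v j)) := by
  have e1 := s_mul_sum hs
  have e2 : (∑ j, v j * star (v j)) * s = ∑ j, v j * star (v j) := by
    have := congrArg star e1
    rwa [star_mul, sum_star, hsp.1] at this
  refine ⟨by rw [star_sub, hsp.1, sum_star], ?_⟩
  rw [sub_mul, mul_sub, mul_sub, hsp.2, e1, e2, sum_sq h]
  simp

theorem r_mul_rng {n : ℕ} {v : Fin n → A} {p s : A} (h : Tup v p)
    (hs : ∀ i, s * v i = v i) (i : Fin n) :
    (s - ∑ j, v j * star (v j)) * (v i * star (v i)) = 0 := by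
  rw [sub_mul, sum_mul_rng h, ← mul_assoc, hs, sub_self]

end Q8x

open Q8x

theorem prove7_dich (h1 : Q_min.{u}) (h2 : Q_ftup.{u}) : Q_dich.{u} := by
  intro A _ hA 𝒰 F _ q hq s hs
  by_cases hleft : ∀ k : ℕ, ∃ (v : Fin (k + 1) → A) (p : A), Tup v p ∧ s * p = p ∧
      (∀ i, s * v i = v i) ∧ Sbe (q (s - ∑ i, v i * star (v i))) (q p)
  · exact Or.inl hleft
  right
  push Not at hleft
  obtain ⟨k, hk⟩ := hleft
  obtain ⟨v, p, hvp, hv0, hsv, hmax⟩ := hA.tup k s hs
  have hsp : s * p = p := by
    rw [← hv0]
    exact hsv 0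
  have hno := hk v p hvp hsp hsv
  obtain ⟨r, hr⟩ : ∃ r, r = s - ∑ j, v j * star (v j) := ⟨_, rfl⟩
  have hrp : Prj r := by rw [hr]; exact r_prj hvp hs hsv
  rw [← hr] at hmax hno
  -- comparison
  obtain ⟨z, hz, ⟨w, hw1, hw2⟩, ⟨w', hw1', hw2'⟩⟩ := hA.comp r p hrp hvp.pr
  rcases hq.ult.dich z hz with hzU | hzU
  · exfalso
    apply hno
    have hqz := hq.one z hzU
    refine ⟨q w, ?_, ?_⟩
    · rw [← map_star, ← map_mul, hw1, map_mul, hqz, one_mul]
    · have := congrArg q hw2
      rwa [map_mul, map_mul, hqz, one_mul] at this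
  · have hqz := hq.one (1 - z) hzU
    have hw3 : star (q w') * q w' = q p := by
      rw [← map_star, ← map_mul, hw1', map_mul, hqz, one_mul]
    have hw4 : q r * q w' = q w' := by
      have := congrArg q hw2'
      rwa [map_mul, map_mul, hqz, one_mul] at this
    -- `q r ≠ 0`
    have hqr : q r ≠ 0 := by
      intro h0
      apply hno
      refine ⟨0, ?_, ?_⟩
      · rw [h0]; simp
      · simp
    -- maximal size of tuples in the quotient
    obtain ⟨n, t, p', ht, hrt, hqp', hn⟩ : ∃ (n : ℕ) (t : Fin (n + 1) → A) (p' : A), Tup t p' ∧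
        (∀ i, r * t i = t i) ∧ q p' ≠ 0 ∧
        ∀ (t' : Fin (n + 2) → A) (p' : A), Tup t' p' → (∀ i, r * t' i = t' i) → q p' = 0 := by
      by_contra hcon
      push Not at hcon
      have hall : ∀ n : ℕ, ∃ (t : Fin (n + 1) → A) (p' : A), Tup t p' ∧
          (∀ i, r * t i = t i) ∧ q p' ≠ 0 := by
        intro n
        induction n with
        | zero =>
          refine ⟨fun _ => r, r, ⟨hrp, ?_⟩, fun _ => hrp.2, hqr⟩
          intro i j
          have hij : i = j := by
            have e1 := i.2
            have e2 := j.2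
            apply Fin.ext
            omega
          rw [hrp.1, hrp.2, if_pos hij]
        | succ n ih =>
          obtain ⟨t, p', e1, e2, e3⟩ := ih
          exact hcon n t p' e1 e2 e3
      obtain ⟨t, p', e1, e2, e3⟩ := hall k
      apply e3
      rw [hmax t p' e1 e2, map_zero]
    have hFT : FT (q r) := h1 A hA 𝒰 F q hq r hrp n t p' ht hqp' hrt hn
    -- combination
    have hqrng : ∀ i, Sbe (q (v i * star (v i))) (q r) := by
      intro i
      refine ⟨q w' * star (q (v i)), ?_, ?_⟩
      · calc star (q w' * star (q (v i))) * (q w' * star (q (v i))) =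
              q (v i) * (star (q w') * q w') * star (q (v i)) := by
                rw [star_mul, star_star]; simp only [mul_assoc]
          _ = q (v i * star (v i)) := by
                rw [hw3, ← map_star, ← map_mul, ← map_mul, tup_right hvp i]
      · rw [← mul_assoc, hw4]
    have hprj : ∀ x : A, Prj x → Prj (q x) := by
      intro x hx
      exact ⟨by rw [← map_star, hx.1], by rw [← map_mul, hx.2]⟩
    have hor1 : ∀ i, q r * q (v i * star (v i)) = 0 := by
      intro i
      rw [← map_mul, hr, r_mul_rng hvp hsv i, map_zero]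
    have hor2 : ∀ i, q (v i * star (v i)) * q r = 0 := by
      intro i
      have := congrArg star (hor1 i)
      rw [star_mul, (hprj r hrp).1, (hprj _ (rng_prj hvp i)).1, star_zero] at this
      exact this
    refine h2 F (q r) (q s) hFT (k + 2)
      (Fin.cons (q r) (fun i : Fin (k + 1) => q (v i * star (v i)))) ?_ ?_ ?_ ?_
    · intro i
      refine Fin.cases ?_ (fun i => ?_) i
      · exact hprj r hrp
      · exact hprj _ (rng_prj hvp i)
    · intro i j hij
      induction i using Fin.cases with
      | zero =>
        induction j using Fin.cases with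
        | zero => exact absurd rfl hij
        | succ j =>
          rw [Fin.cons_zero, Fin.cons_succ]
          exact hor1 j
      | succ i =>
        induction j using Fin.cases with
        | zero =>
          rw [Fin.cons_zero, Fin.cons_succ]
          exact hor2 i
        | succ j =>
          rw [Fin.cons_succ, Fin.cons_succ, ← map_mul, rng_orth hvp i j ?_, map_zero]
          rintro rfl
          exact hij rfl
    · rw [Fin.sum_univ_succ, Fin.cons_zero]
      simp only [Fin.cons_succ]
      rw [← map_sum, ← map_add, hr, sub_add_cancel]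
    · intro i
      refine Fin.cases ?_ (fun i => ?_) i
      · rw [Fin.cons_zero]
        exact ⟨q r, by rw [(hprj r hrp).1, (hprj r hrp).2], (hprj r hrp).2⟩
      · rw [Fin.cons_succ]
        exact hqrng i

end H759R2.Kad
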